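import Pool.Agent.Helper84.OB.Stmts

/-! # OB: the row JN -/

set_option autoImplicit false

universe u

open Set Pool.Agent.Helper84.BT Pool.Agent.Helper84.OB
open scoped Matroid

namespace Pool.Agent.Helper19.OB

theorem JN (h1 : ST_MI.{u}) (h2 : ST_NU.{u}) (h3 : ST_SK.{u}) : ST_JN.{u} := by
  intro α _ M X Y F₁ F₂ hT hP hO1 hX1 hn1 hO2 hX2 hn2
  by_contra hcon
  have hcon' : rk M X ≤ rk M (F₁ ∪ F₂) := not_lt.1 hcon
  obtain ⟨K, hK⟩ : ∃ K : Set α, K = X ∩ Y := ⟨_, rfl⟩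
  obtain ⟨A, hA⟩ : ∃ A : Set α, A = cyc M F₁ := ⟨_, rfl⟩
  obtain ⟨B, hB⟩ : ∃ B : Set α, B = cyc M F₂ := ⟨_, rfl⟩
  obtain ⟨a1, a2, a3, a4⟩ := h3 α M X Y F₁ hP hO1 hX1 hn1
  obtain ⟨b1, b2, b3, b4⟩ := h3 α M X Y F₂ hP hO2 hX2 hn2
  rw [← hA] at a1 a2 a3 a4
  rw [← hB] at b1 b2 b3 b4
  have hpos := hP.pos
  rw [← hK] at a2 a3 b2 b3 hpos
  have hKE : K ⊆ M.E := by rw [hK]; exact inter_subset_left.trans hP.hX.subset_ground
  have hKY : K ⊆ Y := by rw [hK]; exact inter_subset_right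
  have hAX : A ⊆ X := by
    rw [hA]; exact cyc_subset.trans hX1
  have hBX : B ⊆ X := by
    rw [hB]; exact cyc_subset.trans hX2
  have hcK : cyc M K ⊆ K := cyc_subset
  have m := h1 α M hT A B Y a1.isCyclic b1.isCyclic hP.hY.isCyclic
  have eA : A ∩ Y = A ∩ K := by
    rw [hK]; ext x; constructor
    · rintro ⟨hx, hy⟩; exact ⟨hx, hAX hx, hy⟩
    · rintro ⟨hx, hy⟩; exact ⟨hx, hy.2⟩
  have eB : B ∩ Y = B ∩ K := by
    rw [hK]; ext x; constructor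
    · rintro ⟨hx, hy⟩; exact ⟨hx, hBX hx, hy⟩
    · rintro ⟨hx, hy⟩; exact ⟨hx, hy.2⟩
  have eAB : A ∩ B ∩ Y = (A ∩ K) ∩ (B ∩ K) := by
    rw [← eA, ← eB]; ext x; constructor
    · rintro ⟨⟨h, h'⟩, hy⟩; exact ⟨⟨h, hy⟩, h', hy⟩
    · rintro ⟨⟨h, hy⟩, h', -⟩; exact ⟨⟨h, h'⟩, hy⟩
  have eU : A ∪ B ∪ Y ⊆ X ∪ Y :=
    union_subset_union_left _ (union_subset hAX hBX)
  have r1 := rk_mono M eU
  rw [eA] at a4
  rw [eB] at b4
  rw [eAB] at m
  -- submodularity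
  have s1 := rk_submod M (A ∪ B) K
  have eF : F₁ ∪ F₂ = A ∪ B ∪ K := by
    rw [a2, b2]; ext x; simp only [mem_union]; tauto
  rw [eF] at hcon'
  have eI : (A ∪ B) ∩ K = (A ∩ K) ∪ (B ∩ K) := union_inter_distrib_right _ _ _
  rw [eI] at s1
  -- nullities
  have n1 := h2 α M (A ∩ K) K hKE (subset_inter a3 hcK) inter_subset_right
  have n2 := h2 α M (B ∩ K) K hKE (subset_inter b3 hcK) inter_subset_right
  have n3 := h2 α M ((A ∩ K) ∪ (B ∩ K)) K hKE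
    ((subset_inter a3 hcK).trans subset_union_left)
    (union_subset inter_subset_right inter_subset_right)
  have n4 := h2 α M ((A ∩ K) ∩ (B ∩ K)) K hKE
    (subset_inter (subset_inter a3 hcK) (subset_inter b3 hcK))
    (inter_subset_left.trans inter_subset_right)
  have n5 := Set.ncard_union_add_ncard_inter (A ∩ K) (B ∩ K) (Set.toFinite _) (Set.toFinite _)
  omega

end Pool.Agent.Helper19.OB
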